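import Pool.Agent.W422.GC.Stms
import Pool.Agent.W349.SM.C

set_option autoImplicit false

/-! # GC-LIM: the limit of the smoothed integrals with heights -/

namespace Pool.Agent.W335.GC

open MvPolynomial Pool.Agent.H628R4.TZ Pool.Agent.H628R4.TP MeasureTheory Filter Topology
open Pool.Agent.W425.SM hiding dl_pos dl_le dl_tendsto
open Pool.Agent.W349.SM Pool.Agent.W422.GC

variable {r N : ℕ}

/-- the translation -/
noncomputable def bw (b0 : Fin (N+1) → ℝ) (K α : ℝ) (m : ℕ) : Fin (N+1) → ℝ :=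
  bv K α m - dl m • b0

lemma bw_norm (b0 : Fin (N+1) → ℝ) (K α : ℝ) (m : ℕ) :
    ‖bw b0 K α m‖ ≤ |K| + |α| + ‖b0‖ := by
  unfold bw
  refine (norm_sub_le _ _).trans ?_
  have h1 : ‖dl m • b0‖ ≤ ‖b0‖ := by
    rw [norm_smul, Real.norm_eq_abs, abs_of_pos (dl_pos m)]
    nlinarith [norm_nonneg b0, dl_le m]
  linarith [bv_norm (N := N) K α m]

variable {J : Finset (Fin r)} {d : ℕ}

noncomputable def Xm' (Θ : ((J → ℝ) × (Fin d → ℝ)) ≃ₗ[ℝ] (Fin (N+1) → ℝ))
    (b0 : Fin (N+1) → ℝ) (K α : ℝ) (m : ℕ)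
    (p : (J → ℝ) × (Fin d → ℝ)) : Fin (N+1) → ℝ :=
  Θ ((dl m) ^ 2 • p.1, p.2) + bw b0 K α m

open Classical in
noncomputable def H' (v : Fin r → Fin N → ℕ) (u : Fin r → ℝ)
    (Θ : ((J → ℝ) × (Fin d → ℝ)) ≃ₗ[ℝ] (Fin (N+1) → ℝ)) (b0 : Fin (N+1) → ℝ) (K α s : ℝ)
    (m : ℕ) (p : (J → ℝ) × (Fin d → ℝ)) : ℂ :=
  (if ∀ i, 0 < Xm' Θ b0 K α m p i then wt (lm (N := N) s) (Xm' Θ b0 K α m p) else 0) *
    (((∏ j : J, rho (p.1 j)) *
      ∏ j ∈ Jᶜ, stp ((dl m) ^ 2) (ymap v (Θ ((dl m) ^ 2 • p.1, p.2)) j +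
        dl m * (u j - ymap v b0 j)) : ℝ) : ℂ)

lemma int_eq' (v : Fin r → Fin N → ℕ) (u : Fin r → ℝ)
    (Θ : ((J → ℝ) × (Fin d → ℝ)) ≃ₗ[ℝ] (Fin (N+1) → ℝ)) (θ : ℝ) (hA : Adapt v J d Θ θ)
    (b0 : Fin (N+1) → ℝ) (hb0 : ∀ j ∈ J, ymap v b0 j = u j)
    (K α s : ℝ) (m : ℕ) :
    ∫ x, integU v u K α s J m x ∂(Measure.pi (ms (∅ : Finset (Fin (N+1))))) =
      (θ : ℂ) * ∫ p, H' v u Θ b0 K α s m p := by
  classical
  have h1 : Measure.pi (ms (∅ : Finset (Fin (N+1)))) =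
      (volume : Measure (Fin (N+1) → ℝ)).restrict (Set.pi Set.univ fun _ => Set.Ioi 0) := by
    rw [volume_pi, Measure.restrict_pi_pi]
    congr 1
  rw [h1, ← integral_indicator (MeasurableSet.univ_pi fun _ => measurableSet_Ioi), hA.int]
  congr 1
  haveI : (volume : Measure ((J → ℝ) × (Fin d → ℝ))).IsAddHaarMeasure :=
    Measure.prod.instIsAddHaarMeasure _ _
  rw [← integral_add_right_eq_self _ (Θ.symm (bw b0 K α m))]
  have hε : 0 < (dl m) ^ 2 := pow_pos (dl_pos m) 2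
  rw [scale_fst ((dl m)^2) hε, ← integral_const_mul]
  refine integral_congr_ae (Eventually.of_forall fun p => ?_)
  simp only
  rw [map_add, LinearEquiv.apply_symm_apply]
  change _ * Set.indicator _ _ (Xm' Θ b0 K α m p) = _
  unfold H'
  rw [Set.indicator_apply]
  have hmem : (Xm' Θ b0 K α m p ∈ (Set.pi Set.univ fun _ => Set.Ioi (0:ℝ))) ↔
      ∀ i, 0 < Xm' Θ b0 K α m p i := by simp [Set.mem_pi]
  simp only [hmem]
  split_ifs with hpos
  · unfold integU
    have hy : ∀ j, ymap v (Xm' Θ b0 K α m p) j + yu v u K α m j =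
        ymap v (Θ ((dl m) ^ 2 • p.1, p.2)) j + dl m * (u j - ymap v b0 j) := by
      intro j
      unfold Xm' bw yu
      rw [sub_eq_add_neg, ← neg_smul, ymap_add, ymap_add, ymap_smul]
      have := ymap_bv v K α m j
      linear_combination this
    simp only [hy]
    have hprod : ∏ j, (((if j ∈ J then -ph (dl m ^ 2) 1 (ymap v (Θ ((dl m) ^ 2 • p.1, p.2)) j +
          dl m * (u j - ymap v b0 j))
        else ph (dl m ^ 2) 0 (ymap v (Θ ((dl m) ^ 2 • p.1, p.2)) j +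
          dl m * (u j - ymap v b0 j)) : ℝ)) : ℂ) =
        (((∏ j : J, -ph (dl m ^ 2) 1 ((dl m) ^ 2 * p.1 j)) *
          ∏ j ∈ Jᶜ, stp ((dl m) ^ 2) (ymap v (Θ ((dl m) ^ 2 • p.1, p.2)) j +
            dl m * (u j - ymap v b0 j)) : ℝ) : ℂ) := by
      rw [← Complex.ofReal_prod, ← Finset.prod_mul_prod_compl J]
      congr 2
      · rw [← Finset.prod_coe_sort J]
        refine Finset.prod_congr rfl fun j _ => ?_
        rw [if_pos j.2, hA.y, hb0 j j.2, sub_self, mul_zero, add_zero]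
        rfl
      · refine Finset.prod_congr rfl fun j hj => ?_
        rw [if_neg (Finset.mem_compl.1 hj), ph_zero]
    rw [hprod]
    have h2 : ∏ j : J, rho (p.1 j) = ((dl m) ^ 2) ^ Fintype.card J *
        ∏ j : J, -ph (dl m ^ 2) 1 ((dl m) ^ 2 * p.1 j) := by
      rw [← Finset.card_univ, ← Finset.prod_const, ← Finset.prod_mul_distrib]
      exact Finset.prod_congr rfl fun j _ => (ph_one_scale _ hε _).symm
    rw [h2]
    push_cast
    ring
  · simp

lemma Xm'_cont (Θ : ((J → ℝ) × (Fin d → ℝ)) ≃ₗ[ℝ] (Fin (N+1) → ℝ)) (b0 : Fin (N+1) → ℝ)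
    (K α : ℝ) (m : ℕ) : Continuous (Xm' Θ b0 K α m) := by
  unfold Xm'
  have h : Continuous Θ := Θ.toLinearMap.continuous_of_finiteDimensional
  exact (h.comp (by fun_prop)).add continuous_const

lemma H'_meas (v : Fin r → Fin N → ℕ) (u : Fin r → ℝ)
    (Θ : ((J → ℝ) × (Fin d → ℝ)) ≃ₗ[ℝ] (Fin (N+1) → ℝ)) (b0 : Fin (N+1) → ℝ)
    (K α s : ℝ) (m : ℕ) :
    AEStronglyMeasurable (H' v u Θ b0 K α s m) volume := by
  classical
  have h : Continuous Θ := Θ.toLinearMap.continuous_of_finiteDimensional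
  refine Measurable.aestronglyMeasurable ?_
  unfold H'
  refine Measurable.mul ?_ ?_
  · refine Measurable.ite ?_ ((wt_cont s).comp (Xm'_cont Θ b0 K α m)).measurable measurable_const
    have : {p : (J → ℝ) × (Fin d → ℝ) | ∀ i, 0 < Xm' Θ b0 K α m p i} =
        ⋂ i, {p | 0 < Xm' Θ b0 K α m p i} := by ext p; simp
    rw [this]
    exact MeasurableSet.iInter fun i => measurableSet_lt measurable_const
      ((continuous_apply i).comp (Xm'_cont Θ b0 K α m)).measurable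
  · refine (Complex.continuous_ofReal.comp (Continuous.mul ?_ ?_)).measurable
    · exact continuous_finsetProd _ fun j _ => rho_cont.comp
        ((continuous_apply j).comp continuous_fst)
    · exact continuous_finsetProd _ fun j _ => (stp_contDiff _).continuous.comp
        (((ymap_cont v j).comp (h.comp (by fun_prop))).add continuous_const)

lemma H'_bd (v : Fin r → Fin N → ℕ) (u : Fin r → ℝ)
    (Θ : ((J → ℝ) × (Fin d → ℝ)) ≃ₗ[ℝ] (Fin (N+1) → ℝ)) (b0 : Fin (N+1) → ℝ)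
    (K α s : ℝ) (hs : 0 < s) :
    ∃ bound : (J → ℝ) × (Fin d → ℝ) → ℝ, Integrable bound ∧
      ∀ m p, ‖H' v u Θ b0 K α s m p‖ ≤ bound p := by
  classical
  obtain ⟨C, c', hC, hc', hb⟩ := exp_bd Θ (min s 1) (|K| + |α| + ‖b0‖) (lt_min hs one_pos)
  refine ⟨fun p => (∏ j : J, |rho (p.1 j)|) * (C * ∏ i, Real.exp (-c' * |p.2 i|)), ?_,
    fun m p => ?_⟩
  · rw [Measure.volume_eq_prod]
    refine Integrable.mul_prod (f := fun z : J → ℝ => ∏ j : J, |rho (z j)|)
      (g := fun a : Fin d → ℝ => C * ∏ i, Real.exp (-c' * |a i|)) ?_ ?_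
    · exact Integrable.fintype_prod (f := fun (_ : J) t => |rho t|) fun j => rho_int.abs
    · exact (Integrable.fintype_prod (f := fun (_ : Fin d) t => Real.exp (-c' * |t|))
        fun i => exp_abs_int c' hc').const_mul C
  · unfold H'
    rw [norm_mul, Complex.norm_real, Real.norm_eq_abs, abs_mul, Finset.abs_prod, Finset.abs_prod]
    have h1 : ∏ j ∈ Jᶜ, |stp ((dl m) ^ 2) (ymap v (Θ ((dl m) ^ 2 • p.1, p.2)) j +
        dl m * (u j - ymap v b0 j))| ≤ 1 :=
      Finset.prod_le_one (fun _ _ => abs_nonneg _) fun _ _ => stp_bd _ _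
    have h2 : ‖(if ∀ i, 0 < Xm' Θ b0 K α m p i then wt (lm (N := N) s) (Xm' Θ b0 K α m p)
        else 0 : ℂ)‖ ≤ C * ∏ i, Real.exp (-c' * |p.2 i|) := by
      split_ifs with hpos
      · refine (wt_bd s hs _ hpos).trans ?_
        exact hb _ _ _ (bw_norm b0 K α m)
      · rw [norm_zero]
        exact mul_nonneg hC (Finset.prod_nonneg fun _ _ => (Real.exp_pos _).le)
    have h3 : 0 ≤ ∏ j : J, |rho (p.1 j)| := Finset.prod_nonneg fun _ _ => abs_nonneg _
    have h4 : (∏ j : J, |rho (p.1 j)|) *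
        ∏ j ∈ Jᶜ, |stp ((dl m) ^ 2) (ymap v (Θ ((dl m) ^ 2 • p.1, p.2)) j +
          dl m * (u j - ymap v b0 j))| ≤
        ∏ j : J, |rho (p.1 j)| := mul_le_of_le_one_right h3 h1
    calc _ ≤ (C * ∏ i, Real.exp (-c' * |p.2 i|)) * ∏ j : J, |rho (p.1 j)| :=
          mul_le_mul h2 h4 (mul_nonneg h3 (Finset.prod_nonneg fun _ _ => abs_nonneg _))
            ((norm_nonneg _).trans h2)
      _ = _ := mul_comm _ _

/-- a form `ymap v . j` which vanishes on `Θ (0, a)` comes from a point of the affine hull -/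
lemma inAff_of {v : Fin r → Fin N → ℕ}
    {Θ : ((J → ℝ) × (Fin d → ℝ)) ≃ₗ[ℝ] (Fin (N+1) → ℝ)} {θ : ℝ} (hA : Adapt v J d Θ θ)
    (j : Fin r) (h : ∀ a : Fin d → ℝ, ymap v (Θ (0, a)) j = 0) : InAff v J j := by
  classical
  set c : Fin r → ℝ := fun l => if hl : l ∈ J then
    ymap v (Θ (Pi.single (⟨l, hl⟩ : J) 1, 0)) j else 0 with hc
  have key : ∀ x : Fin (N+1) → ℝ, ymap v x j = ∑ l, c l * ymap v x l := by
    intro x
    obtain ⟨⟨z, a⟩, rfl⟩ := Θ.surjective x
    have e1 : ∑ l, c l * ymap v (Θ (z, a)) l = ∑ l : J, c l * z l := by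
      rw [← Finset.sum_subset (Finset.subset_univ J), ← Finset.sum_coe_sort J]
      · exact Finset.sum_congr rfl fun l _ => by rw [hA.y]
      · intro l _ hl
        rw [hc]
        simp only [dif_neg hl, zero_mul]
    rw [e1]
    have e2 : ((z, a) : (J → ℝ) × (Fin d → ℝ)) =
        (0, a) + ∑ l : J, z l • ((Pi.single l 1, 0) : (J → ℝ) × (Fin d → ℝ)) := by
      refine Prod.ext ?_ ?_
      · simp only [Prod.fst_add, Prod.fst_sum, Prod.smul_fst, zero_add]
        funext k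
        rw [Finset.sum_apply]
        simp [Pi.single_apply]
      · simp only [Prod.snd_add, Prod.snd_sum, Prod.smul_snd, smul_zero, Finset.sum_const_zero,
          add_zero]
    rw [e2, map_add, map_sum, ← yL_apply, map_add, map_sum, yL_apply, h a, zero_add]
    refine Finset.sum_congr rfl fun l _ => ?_
    rw [map_smul, map_smul, yL_apply, smul_eq_mul, hc]
    simp only [dif_pos l.2]
    rw [mul_comm]
  refine ⟨c, fun l hl => by rw [hc]; simp only [dif_neg hl], ?_, fun i => ?_⟩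
  · have := key (Pi.single 0 1)
    unfold ymap at this
    simp only [Pi.single_eq_same, ne_eq, Fin.succ_ne_zero, not_false_eq_true,
      Pi.single_eq_of_ne, mul_zero, Finset.sum_const_zero, zero_sub, mul_neg, mul_one,
      Finset.sum_neg_distrib] at this
    linarith
  · have := key (Pi.single i.succ 1)
    have e : ∀ l, ymap v (Pi.single i.succ 1) l = (v l i : ℝ) := by
      intro l
      unfold ymap
      rw [Finset.sum_eq_single i]
      · rw [Pi.single_eq_same, Pi.single_eq_of_ne (Fin.succ_ne_zero i).symm]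
        ring
      · intro k _ hk
        rw [Pi.single_eq_of_ne, mul_zero]
        intro h
        exact hk (Fin.succ_injective _ h)
      · intro h
        exact absurd (Finset.mem_univ _) h
    simp only [e] at this
    exact this.symm

lemma ae_ne' (v : Fin r → Fin N → ℕ)
    (Θ : ((J → ℝ) × (Fin d → ℝ)) ≃ₗ[ℝ] (Fin (N+1) → ℝ)) (θ : ℝ) (hA : Adapt v J d Θ θ) :
    ∀ᵐ p : (J → ℝ) × (Fin d → ℝ), ∀ j, ¬ InAff v J j → ymap v (Θ (0, p.2)) j ≠ 0 := by
  rw [ae_all_iff]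
  intro j
  by_cases hj : InAff v J j
  · exact Eventually.of_forall fun p h => absurd hj h
  set l : ((J → ℝ) × (Fin d → ℝ)) →ₗ[ℝ] ℝ :=
    yL v j ∘ₗ Θ.toLinearMap ∘ₗ LinearMap.inr ℝ (J → ℝ) (Fin d → ℝ) ∘ₗ
      LinearMap.snd ℝ (J → ℝ) (Fin d → ℝ) with hl
  have hlp : ∀ p, l p = ymap v (Θ (0, p.2)) j := by
    intro p
    rw [hl]
    simp only [LinearMap.comp_apply, LinearMap.snd_apply, LinearMap.inr_apply,
      LinearEquiv.coe_coe]
    exact yL_apply v j _
  have hne : LinearMap.ker l ≠ ⊤ := by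
    intro h
    apply hj
    refine inAff_of hA j fun a => ?_
    have : ((0 : J → ℝ), a) ∈ LinearMap.ker l := by rw [h]; trivial
    rw [LinearMap.mem_ker, hlp] at this
    exact this
  haveI : (volume : Measure ((J → ℝ) × (Fin d → ℝ))).IsAddHaarMeasure :=
    Measure.prod.instIsAddHaarMeasure _ _
  have h0 := Measure.addHaar_submodule (volume : Measure ((J → ℝ) × (Fin d → ℝ)))
    (LinearMap.ker l) hne
  have : ∀ᵐ p : (J → ℝ) × (Fin d → ℝ), p ∉ (LinearMap.ker l : Set _) :=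
    measure_eq_zero_iff_ae_notMem.1 h0
  filter_upwards [this] with p hp _ h
  apply hp
  rw [SetLike.mem_coe, LinearMap.mem_ker, hlp, h]

/-- affine relations between the forms -/
lemma ymap_aff (v : Fin r → Fin N → ℕ) (j : Fin r) (c : Fin r → ℝ) (h1 : ∑ l, c l = 1)
    (h2 : ∀ i, ∑ l, c l * (v l i : ℝ) = (v j i : ℝ)) (x : Fin (N+1) → ℝ) :
    ymap v x j = ∑ l, c l * ymap v x l := by
  unfold ymap
  simp only [mul_sub, Finset.sum_sub_distrib]
  congr 1
  · simp only [← h2, Finset.sum_mul, Finset.mul_sum]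
    rw [Finset.sum_comm]
    refine Finset.sum_congr rfl fun _ _ => Finset.sum_congr rfl fun _ _ => by ring
  · rw [← Finset.sum_mul, h1, one_mul]

lemma H'_lim (v : Fin r → Fin N → ℕ) (u : Fin r → ℝ)
    (Θ : ((J → ℝ) × (Fin d → ℝ)) ≃ₗ[ℝ] (Fin (N+1) → ℝ)) (θ : ℝ) (hA : Adapt v J d Θ θ)
    (hgen : ∀ j ∉ J, ∀ c : Fin r → ℝ, (∀ l ∉ J, c l = 0) → ∑ l, c l = 1 →
      (∀ i, ∑ l, c l * (v l i : ℝ) = (v j i : ℝ)) → ∑ l, c l * u l ≠ u j)
    (b0 : Fin (N+1) → ℝ) (hb0 : ∀ j ∈ J, ymap v b0 j = u j) (K α s : ℝ)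
    (hK : |b0 0| < K) (hα : ∀ i : Fin N, |b0 i.succ| < |α|) (hα0 : α ≠ 0)
    (p : (J → ℝ) × (Fin d → ℝ)) (hp : ∀ j, ¬ InAff v J j → ymap v (Θ (0, p.2)) j ≠ 0) :
    Tendsto (fun m => H' v u Θ b0 K α s m p) atTop
      (𝓝 ((∏ j : J, (rho (p.1 j) : ℂ)) * limGU v u α s J (Θ (0, p.2)))) := by
  classical
  set x := Θ (0, p.2) with hx
  set w := Θ (p.1, 0) with hw
  have hX : ∀ m, Xm' Θ b0 K α m p = x + (dl m) ^ 2 • w + bw b0 K α m := by
    intro m
    unfold Xm'
    rw [Θ_split]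
  have hX0 : ∀ m, Xm' Θ b0 K α m p 0 = x 0 + dl m * (dl m * w 0 + (-K - b0 0)) := by
    intro m
    rw [hX]
    simp only [bw, Pi.add_apply, Pi.sub_apply, Pi.smul_apply, smul_eq_mul, bv, Fin.cons_zero]
    ring
  have hXs : ∀ m (i : Fin N), Xm' Θ b0 K α m p i.succ =
      x i.succ + dl m * (dl m * w i.succ + (α - b0 i.succ)) := by
    intro m i
    rw [hX]
    simp only [bw, Pi.add_apply, Pi.sub_apply, Pi.smul_apply, smul_eq_mul, bv, Fin.cons_succ]
    ring
  have hY : ∀ m j, ymap v (Θ ((dl m) ^ 2 • p.1, p.2)) j + dl m * (u j - ymap v b0 j) =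
      ymap v x j + dl m * (dl m * ymap v w j + (u j - ymap v b0 j)) := by
    intro m j
    rw [Θ_split, ymap_add, ymap_smul]
    ring
  have hxJ : ∀ j ∈ J, ymap v x j = 0 := by
    intro j hj
    have := hA.y 0 p.2 ⟨j, hj⟩
    rw [← hx] at this
    exact this
  -- affine relations
  have hrel : ∀ j ∉ J, ∀ c : Fin r → ℝ, (∀ l ∉ J, c l = 0) → ∑ l, c l = 1 →
      (∀ i, ∑ l, c l * (v l i : ℝ) = (v j i : ℝ)) →
      ymap v x j = 0 ∧ ymap v b0 j = ∑ l, c l * u l := by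
    intro j hj c c0 c1 c2
    rw [ymap_aff v j c c1 c2 x, ymap_aff v j c c1 c2 b0]
    constructor
    · refine Finset.sum_eq_zero fun l _ => ?_
      by_cases hl : l ∈ J
      · rw [hxJ l hl, mul_zero]
      · rw [c0 l hl, zero_mul]
    · refine Finset.sum_congr rfl fun l _ => ?_
      by_cases hl : l ∈ J
      · rw [hb0 l hl]
      · rw [c0 l hl, zero_mul, zero_mul]
  have hz : ∀ (_ : ∃ i, ∀ᶠ m in atTop, Xm' Θ b0 K α m p i < 0),
      Tendsto (fun m => H' v u Θ b0 K α s m p) atTop (𝓝 0) := by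
    rintro ⟨i, hi⟩
    refine tendsto_const_nhds.congr' ?_
    filter_upwards [hi] with m hm
    unfold H'
    rw [if_neg (fun h => absurd (h i) (not_lt.2 hm.le)), zero_mul]
  have hz2 : ∀ (_ : ∃ j ∉ J, ∀ᶠ m in atTop, ymap v x j + dl m * (dl m * ymap v w j +
      (u j - ymap v b0 j)) < 0),
      Tendsto (fun m => H' v u Θ b0 K α s m p) atTop (𝓝 0) := by
    rintro ⟨j, hj, hi⟩
    refine tendsto_const_nhds.congr' ?_
    filter_upwards [hi] with m hm
    unfold H'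
    have h5 : ∏ j ∈ Jᶜ, stp ((dl m) ^ 2) (ymap v (Θ ((dl m) ^ 2 • p.1, p.2)) j +
        dl m * (u j - ymap v b0 j)) = 0 := by
      refine Finset.prod_eq_zero (Finset.mem_compl.2 hj) ?_
      rw [hY]
      exact stp_neg _ (pow_pos (dl_pos m) 2) _ hm.le
    rw [h5]
    simp
  have hk0 : -K - b0 0 < 0 := by
    have := abs_lt.1 hK
    linarith [this.1]
  have hkp : 0 < α → ∀ i : Fin N, 0 < α - b0 i.succ := by
    intro h i
    have := hα i
    rw [abs_of_pos h] at this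
    have := (abs_lt.1 this).2
    linarith
  have hkn : α < 0 → ∀ i : Fin N, α - b0 i.succ < 0 := by
    intro h i
    have := hα i
    rw [abs_of_neg h] at this
    have := (abs_lt.1 this).1
    linarith
  unfold limGU
  by_cases hL : Low v u J
  swap
  · rw [if_neg (fun h => hL h.1), mul_zero]
    unfold Low at hL
    push Not at hL
    obtain ⟨j, hj, c, c0, c1, c2, c3⟩ := hL
    obtain ⟨r1, r2⟩ := hrel j hj c c0 c1 c2
    have c4 := hgen j hj c c0 c1 c2
    refine hz2 ⟨j, hj, ?_⟩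
    refine ev_neg _ _ _ (Or.inr ⟨r1, ?_⟩)
    rw [r2]
    have := lt_of_le_of_ne c3 (Ne.symm c4)
    linarith
  by_cases h0 : 0 < x 0
  swap
  · rw [if_neg (fun h => h0 h.2.1), mul_zero]
    refine hz ⟨0, ?_⟩
    simp only [hX0]
    refine ev_neg _ _ _ ?_
    rcases lt_or_eq_of_le (not_lt.1 h0) with h | h
    · exact Or.inl h
    · exact Or.inr ⟨h, hk0⟩
  by_cases h1 : ∀ i : Fin N, 0 < x i.succ ∨ (0 < α ∧ x i.succ = 0)
  swap
  · rw [if_neg (fun h => h1 h.2.2.1), mul_zero]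
    push Not at h1
    obtain ⟨i, hi1, hi2⟩ := h1
    refine hz ⟨i.succ, ?_⟩
    simp only [hXs]
    refine ev_neg _ _ _ ?_
    rcases lt_or_eq_of_le hi1 with h | h
    · exact Or.inl h
    · refine Or.inr ⟨h, ?_⟩
      rcases lt_or_gt_of_ne hα0 with h' | h'
      · exact hkn h' i
      · exact absurd h (hi2 h')
  by_cases h2 : ∀ j ∉ J, ¬ InAff v J j → 0 < ymap v x j
  swap
  · rw [if_neg (fun h => h2 h.2.2.2), mul_zero]
    push Not at h2
    obtain ⟨j, hj, hj1, hj2⟩ := h2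
    have hj3 : ymap v x j < 0 := lt_of_le_of_ne hj2 (hp j hj1)
    exact hz2 ⟨j, hj, ev_neg _ _ _ (Or.inl hj3)⟩
  rw [if_pos ⟨hL, h0, h1, h2⟩]
  -- eventually all conditions hold
  have e1 : ∀ᶠ m in atTop, ∀ i, 0 < Xm' Θ b0 K α m p i := by
    rw [eventually_all]
    intro i
    refine Fin.cases ?_ (fun j => ?_) i
    · simp only [hX0]
      exact ev_pos _ _ _ (Or.inl h0)
    · simp only [hXs]
      refine ev_pos _ _ _ ?_
      rcases h1 j with h | ⟨h, h'⟩
      · exact Or.inl h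
      · exact Or.inr ⟨h', hkp h j⟩
  have e2 : ∀ᶠ m in atTop, ∀ j, j ∉ J →
      stp ((dl m) ^ 2) (ymap v (Θ ((dl m) ^ 2 • p.1, p.2)) j +
        dl m * (u j - ymap v b0 j)) = 1 := by
    rw [eventually_all]
    intro j
    by_cases hj : j ∈ J
    · exact Eventually.of_forall fun m h => absurd hj h
    have h4 : ∀ᶠ m in atTop, 0 < ymap v x j + dl m * (dl m * (ymap v w j - 1) +
        (u j - ymap v b0 j)) := by
      refine ev_pos _ _ _ ?_
      by_cases hI : InAff v J j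
      · obtain ⟨c, c0, c1, c2⟩ := hI
        obtain ⟨r1, r2⟩ := hrel j hj c c0 c1 c2
        refine Or.inr ⟨r1, ?_⟩
        rw [r2]
        linarith [hL j hj c c0 c1 c2]
      · exact Or.inl (h2 j hj hI)
    filter_upwards [h4] with m hm _
    rw [hY]
    exact stp_big _ (pow_pos (dl_pos m) 2) _ (by nlinarith)
  have h6 : Tendsto (fun m => wt (lm (N := N) s) (Xm' Θ b0 K α m p) *
      ∏ j : J, (rho (p.1 j) : ℂ)) atTop
      (𝓝 (wt (lm (N := N) s) x * ∏ j : J, (rho (p.1 j) : ℂ))) := by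
    refine Tendsto.mul_const _ ?_
    refine ((wt_cont s).tendsto x).comp ?_
    rw [tendsto_pi_nhds]
    intro i
    refine Fin.cases ?_ (fun j => ?_) i
    · simp only [hX0]
      have : Tendsto (fun m => x 0 + dl m * (dl m * w 0 + (-K - b0 0))) atTop
          (𝓝 (x 0 + 0 * (0 * w 0 + (-K - b0 0)))) :=
        tendsto_const_nhds.add (dl_tendsto.mul ((dl_tendsto.mul_const _).add_const _))
      rwa [zero_mul, add_zero] at this
    · simp only [hXs]
      have : Tendsto (fun m => x j.succ + dl m * (dl m * w j.succ + (α - b0 j.succ))) atTop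
          (𝓝 (x j.succ + 0 * (0 * w j.succ + (α - b0 j.succ)))) :=
        tendsto_const_nhds.add (dl_tendsto.mul ((dl_tendsto.mul_const _).add_const _))
      rwa [zero_mul, add_zero] at this
  rw [mul_comm]
  refine h6.congr' ?_
  filter_upwards [e1, e2] with m hm1 hm2
  unfold H'
  rw [if_pos hm1]
  have h7 : ∏ j ∈ Jᶜ, stp ((dl m) ^ 2) (ymap v (Θ ((dl m) ^ 2 • p.1, p.2)) j +
      dl m * (u j - ymap v b0 j)) = 1 :=
    Finset.prod_eq_one fun j hj => hm2 j (Finset.mem_compl.1 hj)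
  rw [h7]
  push_cast
  ring

lemma lim_int' (v : Fin r → Fin N → ℕ) (u : Fin r → ℝ)
    (Θ : ((J → ℝ) × (Fin d → ℝ)) ≃ₗ[ℝ] (Fin (N+1) → ℝ)) (α s : ℝ) :
    ∫ p : (J → ℝ) × (Fin d → ℝ), (∏ j : J, (rho (p.1 j) : ℂ)) *
        limGU v u α s J (Θ (0, p.2)) =
      ∫ a, limGU v u α s J (Θ (0, a)) := by
  rw [Measure.volume_eq_prod]
  rw [integral_prod_mul (fun z : J → ℝ => ∏ j : J, (rho (z j) : ℂ))
    (fun a : Fin d → ℝ => limGU v u α s J (Θ (0, a)))]
  have h1 : ∫ z : J → ℝ, ∏ j : J, (rho (z j) : ℂ) = 1 := by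
    rw [integral_fintype_prod_volume_eq_prod (fun (_ : J) t => (rho t : ℂ))]
    refine Finset.prod_eq_one fun j _ => ?_
    rw [integral_complex_ofReal, rho_integral]
    simp
  rw [h1, one_mul]

/-- GC-LIM -/
theorem main : Pool.Agent.W422.GC.S_LIM := by
  intro r N v u J d Θ θ hA hgen K α s hs hK hα hα0
  set b0 : Fin (N+1) → ℝ := Θ ((fun j : J => u j), 0) with hb
  have hb0 : ∀ j ∈ J, ymap v b0 j = u j := by
    intro j hj
    exact hA.y (fun j : J => u j) 0 ⟨j, hj⟩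
  simp only [int_eq' v u Θ θ hA b0 hb0 K α s]
  refine Tendsto.const_mul _ ?_
  obtain ⟨bound, hb1, hb2⟩ := H'_bd v u Θ b0 K α s hs
  rw [← lim_int' v u Θ α s]
  refine tendsto_integral_of_dominated_convergence bound (fun m => H'_meas v u Θ b0 K α s m) hb1
    (fun m => Eventually.of_forall fun p => hb2 m p) ?_
  filter_upwards [ae_ne' v Θ θ hA] with p hp
  exact H'_lim v u Θ θ hA hgen b0 hb0 K α s hK hα hα0 p hp

end Pool.Agent.W335.GC
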